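import Pool.Agent.Y677.RSZ.FinInst

set_option autoImplicit false

/-!
# Narrow progressions in ARBITRARY sets of `x` for which `x² + x + A` is a prime

Let `A` be odd and `1 - 4 A` not a square (for instance `A ≥ 3` odd). Whatever the set `S` of natural numbers `x` for
which `|x² + x + A|` is a prime, all elements of `S` in `(X, X + Y]`, with at most `ε Y / log X` exceptions (an
arbitrarily small proportion of the expected number of the `x` for which `x² + x + A` is a prime), are terms of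
`l`-term arithmetic progressions contained in `S ∩ (X, X + Y]` whose difference is at most a fixed power of `log X`;
here `X ^ θ ≤ Y ≤ X` and `θ > 0` is arbitrarily small. The same holds for sets of `x` for which `x² + x + A` has no
prime factor up to a small power of `x`.
-/

namespace Pool.Agent.Results.MP_8be758_nt.NarrowProgressions

open Finset Filter

/-- `x` is a term of an `l`-term arithmetic progression contained in `S ∩ (u, v]`, with difference at most `D` -/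
def OnProgression (S : Set ℕ) (l : ℕ) (D : ℝ) (u v x : ℕ) : Prop :=
  ∃ m d : ℕ, 1 ≤ d ∧ (d : ℝ) ≤ D ∧ (∀ i < l, m + i * d ∈ S ∧ u < m + i * d ∧ m + i * d ≤ v) ∧ ∃ i < l, x = m + i * d

/-- all elements of `S` in `(u, v]` with at most `t` exceptions are terms of such progressions -/
def NearlyAll (S : Set ℕ) (l : ℕ) (D : ℝ) (u v : ℕ) (t : ℝ) : Prop :=
  ({x : ℕ | u < x ∧ x ≤ v ∧ x ∈ S ∧ ¬ OnProgression S l D u v x}.ncard : ℝ) ≤ t

/-- all prime factors of `x² + x + A` are larger than `x ^ (1 / r)` -/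
def Rough (A : ℤ) (r x : ℕ) : Prop :=
  ∀ p : ℕ, p.Prime → (p : ℤ) ∣ (x : ℤ) ^ 2 + x + A → (x : ℝ) ^ (1 / (r : ℝ)) < p

section aux
open Pool.Agent.Y677.RSZ
open Pool.Agent.TH977.PW (N)
open Pool.Agent.TH464.PW (quad quad_eval quad_irr quad_deg quad_lead)
open Pool.Agent.W123.RU

open Classical in
lemma out_eq (S : Set ℕ) (l : ℕ) (D : ℝ) (u v : ℕ) :
    ({x : ℕ | u < x ∧ x ≤ v ∧ x ∈ S ∧ ¬ OnProgression S l D u v x}.ncard : ℝ) = (N (Outside S l D u v) u v : ℝ) := by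
  unfold N
  rw [← Set.ncard_coe_finset]
  congr 2
  ext n
  rw [mem_coe, mem_filter, mem_Ioc]
  constructor
  · rintro ⟨h1, h2, h3, h4⟩
    exact ⟨⟨h1, h2⟩, h3, h4⟩
  · rintro ⟨⟨h1, h2⟩, h3, h4⟩
    exact ⟨h1, h2, h3, h4⟩

lemma sys (A : ℤ) (hA : Odd A) (hsq : ¬ IsSquare (1 - 4 * A)) : Poly.Sys (fun _ : Fin 1 => quad 1 1 A) where
  irr := fun _ => quad_irr 1 1 A one_ne_zero (fun p hp h => by
    have h1 := h.1
    have h2 : p ∣ 1 := by exact_mod_cast h1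
    exact hp.one_lt.ne' (Nat.dvd_one.1 h2)) (by
    have e : (1 : ℤ) ^ 2 - 4 * 1 * A = 1 - 4 * A := by ring
    rw [e]
    exact hsq)
  deg := fun _ => by rw [quad_deg 1 1 A one_ne_zero]; norm_num
  lead := fun _ => by rw [quad_lead 1 1 A one_ne_zero]; norm_num
  inj := fun _ _ _ => Subsingleton.elim _ _
  adm := fun p hp => by
    by_contra hcon
    push Not at hcon
    obtain ⟨_, h0⟩ := hcon 0
    obtain ⟨_, h1⟩ := hcon 1
    rw [quad_eval] at h0 h1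
    have h2 : (p : ℤ) ∣ A := by
      have e : (1 * ((0 : ℕ) : ℤ) ^ 2 + 1 * ((0 : ℕ) : ℤ) + A) = A := by push_cast; ring
      rwa [e] at h0
    have h3 : (p : ℤ) ∣ 2 := by
      have h4 := dvd_sub h1 h2
      have e : (1 * ((1 : ℕ) : ℤ) ^ 2 + 1 * ((1 : ℕ) : ℤ) + A) - A = 2 := by push_cast; ring
      rwa [e] at h4
    have h5 : p ∣ 2 := by exact_mod_cast h3
    have h6 : p = 2 := (Nat.prime_dvd_prime_iff_eq hp Nat.prime_two).1 h5
    rw [h6] at h2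
    obtain ⟨y, hy⟩ := hA
    omega

lemma rough_iff (A : ℤ) (r m : ℕ) : Pool.Agent.TH977.PW.Rough (fun _ : Fin 1 => quad 1 1 A) r m ↔ Rough A r m := by
  unfold Pool.Agent.TH977.PW.Rough Rough
  have e : (quad 1 1 A).eval (m : ℤ) = (m : ℤ) ^ 2 + m + A := by rw [quad_eval]; ring
  simp only [e]
  exact ⟨fun h => h 0, fun h _ => h⟩

/-- prime values at large arguments are rough -/
lemma prime_rough (A : ℤ) (n : ℕ) (hn : A.natAbs + 2 ≤ n) (h : ((n : ℤ) ^ 2 + n + A).natAbs.Prime) : Rough A 2 n := by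
  intro p hp hd
  have h1 : p ∣ ((n : ℤ) ^ 2 + n + A).natAbs := by
    rw [← Int.natCast_dvd]
    exact hd
  have h2 : p = ((n : ℤ) ^ 2 + n + A).natAbs := (Nat.prime_dvd_prime_iff_eq hp h).1 h1
  have h3 : n < p := by
    rw [h2]
    have h4 : (A.natAbs : ℤ) + 2 ≤ n := by exact_mod_cast hn
    have h5 : -(A.natAbs : ℤ) ≤ A := by
      have := Int.natAbs_neg A
      omega
    have h6 : (n : ℤ) < (n : ℤ) ^ 2 + n + A := by nlinarith
    omega
  have h7 : (n : ℝ) ^ (1 / ((2 : ℕ) : ℝ)) ≤ n := by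
    have h8 : (1 : ℝ) ≤ n := by exact_mod_cast (by omega : 1 ≤ n)
    calc (n : ℝ) ^ (1 / ((2 : ℕ) : ℝ)) ≤ (n : ℝ) ^ (1 : ℝ) := Real.rpow_le_rpow_of_exponent_le h8 (by norm_num)
      _ = n := Real.rpow_one _
  exact lt_of_le_of_lt h7 (by exact_mod_cast h3)

end aux

/-- **Narrow progressions in arbitrary sets of `x` for which `x² + x + A` is a prime, or has no small prime factor.** -/
theorem result (A : ℤ) (hA : Odd A) (hsq : ¬ IsSquare (1 - 4 * A)) (θ : ℝ) (hθ : 0 < θ) (hθ1 : θ ≤ 1) :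
    -- prime values
    (∀ l : ℕ, 2 ≤ l → ∀ ε : ℝ, 0 < ε → ∃ B : ℕ, ∀ᶠ X : ℕ in atTop, ∀ Y : ℕ, (X : ℝ) ^ θ ≤ Y → Y ≤ X →
      ∀ S : Set ℕ, (∀ x ∈ S, ((x : ℤ) ^ 2 + x + A).natAbs.Prime) →
        NearlyAll S l (Real.log X ^ B) X (X + Y) (ε * (Y / Real.log X))) ∧
    -- rough values
    (∀ r : ℕ, 2 ≤ r → ∀ l : ℕ, 2 ≤ l → ∀ ε : ℝ, 0 < ε → ∃ B : ℕ, ∀ᶠ X : ℕ in atTop, ∀ Y : ℕ,
      (X : ℝ) ^ θ ≤ Y → Y ≤ X → ∀ S : Set ℕ, (∀ x ∈ S, Rough A r x) →
        NearlyAll S l (Real.log X ^ B) X (X + Y) (ε * (Y / Real.log X))) ∧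
    -- there are many arguments with rough values having a bounded number of prime factors
    ∃ r₀ : ℕ, ∀ r : ℕ, r₀ ≤ r → ∃ κ : ℝ, 0 < κ ∧ ∀ᶠ X : ℕ in atTop, ∀ Y : ℕ, (X : ℝ) ^ θ ≤ Y → Y ≤ X →
      κ * (Y / Real.log X) ≤ ({x : ℕ | X < x ∧ x ≤ X + Y ∧ Rough A r x ∧
        ((x : ℤ) ^ 2 + x + A).natAbs.primeFactorsList.length ≤ r}.ncard : ℝ) := by
  classical
  have hsys := sys A hA hsq
  have key : ∀ r : ℕ, 2 ≤ r → ∀ l : ℕ, 2 ≤ l → ∀ ε : ℝ, 0 < ε → ∃ B : ℕ, ∀ᶠ X : ℕ in atTop, ∀ Y : ℕ,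
      (X : ℝ) ^ θ ≤ Y → Y ≤ X → ∀ S : Set ℕ, (∀ x ∈ S, Rough A r x) →
        NearlyAll S l (Real.log X ^ B) X (X + Y) (ε * (Y / Real.log X)) := by
    intro r hr l hl ε hε
    obtain ⟨B, hB⟩ := Pool.Agent.Y677.RSZ.narrow _ hsys θ hθ r hr l hl ε hε
    refine ⟨B, ?_⟩
    filter_upwards [hB] with X hX Y hXY hYX S hS
    have h1 := hX Y hXY hYX S (fun m hm => (rough_iff A r m).2 (hS m hm))
    unfold NearlyAll
    rw [out_eq]
    rw [Fintype.card_fin, pow_one] at h1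
    calc _ ≤ ε * Y / Real.log X := h1
      _ = _ := by ring
  refine ⟨?_, key, ?_⟩
  · intro l hl ε hε
    obtain ⟨B, hB⟩ := key 2 le_rfl l hl ε hε
    refine ⟨B, ?_⟩
    filter_upwards [hB, eventually_ge_atTop (A.natAbs + 2)] with X hX hXa Y hXY hYX S hS
    -- only the elements of `S` in the interval matter
    have h1 := hX Y hXY hYX {n | n ∈ S ∧ X < n ∧ n ≤ X + Y} (fun n hn => prime_rough A n (by
      have := hn.2.1
      omega) (hS n hn.1))
    unfold NearlyAll at h1 ⊢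
    refine le_trans (le_of_eq ?_) h1
    congr 2
    ext n
    constructor
    · rintro ⟨h2, h3, h4, h5⟩
      refine ⟨h2, h3, ⟨h4, h2, h3⟩, fun h6 => h5 ?_⟩
      obtain ⟨m, d, g1, g2, g3, g4⟩ := h6
      exact ⟨m, d, g1, g2, fun i hi => ⟨(g3 i hi).1.1, (g3 i hi).2⟩, g4⟩
    · rintro ⟨h2, h3, h4, h5⟩
      refine ⟨h2, h3, h4.1, fun h6 => h5 ?_⟩
      obtain ⟨m, d, g1, g2, g3, g4⟩ := h6
      exact ⟨m, d, g1, g2, fun i hi => ⟨⟨(g3 i hi).1, (g3 i hi).2⟩, (g3 i hi).2⟩, g4⟩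
  · obtain ⟨r1, hr1, h1⟩ := Pool.Agent.TH977.PW.lower_input _ hsys θ hθ hθ1
    refine ⟨r1, fun r hr => ?_⟩
    obtain ⟨κ, hκ, h⟩ := h1 r hr
    refine ⟨κ, hκ, ?_⟩
    filter_upwards [h] with X hX Y hXY hYX
    have h2 := hX Y hXY hYX
    rw [Fintype.card_fin, pow_one] at h2
    have h3 : {n : ℕ | X < n ∧ n ≤ X + Y ∧ Rough A r n ∧ ((n : ℤ) ^ 2 + n + A).natAbs.primeFactorsList.length ≤ r} =
        (((Ioc X (X + Y)).filter (fun m => Pool.Agent.TH977.PW.Rough (fun _ : Fin 1 => Pool.Agent.TH464.PW.quad 1 1 A) r m ∧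
          Pool.Agent.TH977.PW.Few (fun _ : Fin 1 => Pool.Agent.TH464.PW.quad 1 1 A) r m) : Finset ℕ) : Set ℕ) := by
      ext n
      rw [mem_coe, mem_filter, mem_Ioc, rough_iff]
      have e : (Pool.Agent.TH464.PW.quad 1 1 A).eval (n : ℤ) = (n : ℤ) ^ 2 + n + A := by
        rw [Pool.Agent.TH464.PW.quad_eval]; ring
      have e2 : Pool.Agent.TH977.PW.Few (fun _ : Fin 1 => Pool.Agent.TH464.PW.quad 1 1 A) r n ↔
          ((n : ℤ) ^ 2 + n + A).natAbs.primeFactorsList.length ≤ r := by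
        unfold Pool.Agent.TH977.PW.Few
        simp only [e]
        exact ⟨fun h => h 0, fun h _ => h⟩
      rw [e2]
      constructor
      · rintro ⟨g1, g2, g3, g4⟩
        exact ⟨⟨g1, g2⟩, g3, g4⟩
      · rintro ⟨⟨g1, g2⟩, g3, g4⟩
        exact ⟨g1, g2, g3, g4⟩
    rw [h3, Set.ncard_coe_finset]
    calc κ * (Y / Real.log X) = κ * Y / Real.log X := by ring
      _ ≤ _ := h2

end Pool.Agent.Results.MP_8be758_nt.NarrowProgressions
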