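import Pool.Agent.Q145.Shift

/-!
# Primes `x² + x + A` in an arbitrary dense set of primes, `x` in short progressions inside an arbitrary dense set

Let `k ≥ 2`, `δ > 0` and `0 < ε ≤ 1`. There is `B` such that for all large `Y`, all `N` with `(log Y)^B ≤ N ≤ Y^(1/8)`,
EVERY set `T` of at least `δ N` integers in `[1, N]` and EVERY set `P` of at least `δ Y / log Y` primes up to `Y`, a
positive proportion of all odd integers `3 ≤ A ≤ Y` has the following property: `T` contains a `k`-term arithmetic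
progression, of difference at most `N^ε (log Y)^B`, for all terms `x` of which `x² + x + A` is a prime of the set `P`.
-/

set_option autoImplicit false

namespace Pool.Agent.Results.MP_8be758_nt.PolylogProgressions

open Finset Polynomial

/-- `T` contains the `k` terms of an arithmetic progression with difference between `1` and `D`, and `x² + x + A`
belongs to `P` for each of these terms `x` -/
def Good (T P : Finset ℕ) (k : ℕ) (D : ℝ) (A : ℕ) : Prop :=
  ∃ n r : ℕ, 1 ≤ r ∧ (r : ℝ) ≤ D ∧ ∀ j < k, n + j * r ∈ T ∧ (n + j * r) ^ 2 + (n + j * r) + A ∈ P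

open Classical in
/-- **A positive proportion of all odd constant terms `A`.** -/
theorem result (k : ℕ) (hk : 2 ≤ k) (δ ε : ℝ) (hδ : 0 < δ) (hε : 0 < ε) (hε1 : ε ≤ 1) :
    ∃ B : ℕ, ∃ c : ℝ, 0 < c ∧ ∃ Y₀ : ℕ, ∀ Y N : ℕ, Y₀ ≤ Y → Real.log Y ^ B ≤ N → N ^ 8 ≤ Y →
      ∀ T ⊆ Icc 1 N, δ * N ≤ T.card →
      ∀ P ⊆ Icc 1 Y, (∀ p ∈ P, p.Prime) → δ * (Y / Real.log Y) ≤ P.card →
        c * Y ≤ ((Icc 1 Y).filter (fun A => 3 ≤ A ∧ Odd A ∧ Good T P k ((N : ℝ) ^ ε * Real.log Y ^ B) A)).card := by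
  have hd : (X ^ 2 + X : ℤ[X]).natDegree = 2 := by compute_degree!
  obtain ⟨B, c, hc, X₀, h⟩ :=
    Pool.Agent.Q145.Shift.big (X ^ 2 + X : ℤ[X]) (by rw [hd]; norm_num) 2 k hk δ ε hδ hε hε1
  refine ⟨B, c, hc, X₀, fun X N hX hN hNX T hT hTc P hP hPp hPc => ?_⟩
  obtain ⟨G, hG, hGc, hGb⟩ := h X N hX hN (by rw [hd]; exact hNX) T hT hTc P hP hPp hPc
  refine hGc.trans ?_
  have hsub : G ⊆ (Icc 1 X).filter (fun A => 3 ≤ A ∧ Odd A ∧ Good T P k ((N : ℝ) ^ ε * Real.log X ^ B) A) := by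
    intro A hA
    rw [mem_filter]
    obtain ⟨hA2, n, r, h2, h3, h4⟩ := hGb A hA
    have h7 : ∀ j < k, n + j * r ∈ T ∧ ∃ p ∈ P, p ≠ 2 ∧ p = (n + j * r) ^ 2 + (n + j * r) + A := by
      intro j hj
      obtain ⟨h5, p, hp, hp2, hpe⟩ := h4 j hj
      refine ⟨h5, p, hp, hp2.ne', ?_⟩
      rw [eval_add, eval_pow, eval_X] at hpe
      exact_mod_cast hpe
    refine ⟨hG hA, hA2, ?_, n, r, h2, h3, fun j hj => ?_⟩
    · obtain ⟨_, p, hp, hp2, hpe⟩ := h7 0 (by omega)
      have h8 := (hPp p hp).odd_of_ne_two hp2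
      have h9 : Even ((n + 0 * r) ^ 2 + (n + 0 * r)) := by
        have e : (n + 0 * r) ^ 2 + (n + 0 * r) = (n + 0 * r) * (n + 0 * r + 1) := by ring
        rw [e]
        exact Nat.even_mul_succ_self _
      rw [hpe, Nat.odd_add'] at h8
      exact h8.2 h9
    · obtain ⟨h5, p, hp, _, hpe⟩ := h7 j hj
      exact ⟨h5, by rwa [← hpe]⟩
  exact_mod_cast card_le_card hsub

end Pool.Agent.Results.MP_8be758_nt.PolylogProgressions
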