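import Pool.Agent.TH977.PW.Inst

set_option autoImplicit false

/-!
# Regular points of ARBITRARY sets of `x` for which `x² + x + A` is a prime

Let `A` be odd and `1 - 4 A` not a square (for instance `A ≥ 3` odd), and let `S` be an ARBITRARY set of natural numbers
`x` for which `|x² + x + A|` is a prime (for example the set of all of them), or only has no prime factor up to a small
power of `x`. In every short
interval `(X, X + Y]`, `X ^ θ ≤ Y ≤ X / 2`, all but `ε Y / log X` of the elements of `S` are regular points of `S`: the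
numbers of elements of `S` in ALL intervals around the point of length between `log X / c` and `Y` have the right
order of magnitude, and `S` has constant density up to `δ` on both sides of the point at all but `B (ε, δ)` dyadic
scales.
-/

namespace Pool.Agent.Results.MP_8be758_nt.RegularPoints

open Finset Filter

open Classical in
/-- the number of the elements of `S` in `(u, v]` -/
noncomputable def N (S : Set ℕ) (u v : ℕ) : ℕ := ((Ioc u v).filter (fun m => m ∈ S)).card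

/-- All intervals `(m - s, m + t]` with `s, t ≤ Y` of length at least `log X / c` contain the right order of elements
of `S`. -/
def RightOrder (S : Set ℕ) (c : ℝ) (X Y m : ℕ) : Prop :=
  ∀ s t : ℕ, s ≤ Y → t ≤ Y → Real.log X ≤ c * (s + t) →
    c * (s + t) / Real.log X ≤ N S (m - s) (m + t) ∧
      (N S (m - s) (m + t) : ℝ) ≤ (s + t) / (c * Real.log X)

/-- Up to `δ`, `S` has a constant density on both sides of `m` up to the distance `2 ^ j`. -/
def ConstantDensity (S : Set ℕ) (c δ : ℝ) (X m j : ℕ) : Prop :=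
  ∃ lam : ℝ, c ≤ lam ∧ lam ≤ 1 / c ∧ ∀ s t : ℕ, s ≤ 2 ^ j → t ≤ 2 ^ j →
    |(N S (m - s) (m + t) : ℝ) - lam * (s + t) / Real.log X| ≤ δ * 2 ^ j / Real.log X

open Classical in
/-- the number of the scales `log X ≤ 2 ^ j ≤ Y` without this property -/
noncomputable def badScales (S : Set ℕ) (c δ : ℝ) (X Y m : ℕ) : ℕ :=
  ((range (Nat.log 2 Y + 1)).filter (fun j => Real.log X ≤ (2 : ℝ) ^ j ∧ ¬ ConstantDensity S c δ X m j)).card

/-- The elements of `S` that are not regular points of `S`. -/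
def Irregular (S : Set ℕ) (c δ : ℝ) (B X Y : ℕ) : Set ℕ :=
  {m | m ∈ S ∧ ¬ (RightOrder S c X Y m ∧ badScales S c δ X Y m ≤ B)}

/-- all prime factors of `m² + m + A` are larger than `m ^ (1 / r)` -/
def Rough (A : ℤ) (r m : ℕ) : Prop :=
  ∀ p : ℕ, p.Prime → (p : ℤ) ∣ (m : ℤ) ^ 2 + m + A → (m : ℝ) ^ (1 / (r : ℝ)) < p

lemma N_eq : N = Pool.Agent.TH977.PW.N := by
  funext A u v
  unfold N Pool.Agent.TH977.PW.N
  rfl

lemma RightOrder_iff (A : Set ℕ) (c : ℝ) (X Y m : ℕ) :
    RightOrder A c X Y m ↔ Pool.Agent.TH977.PW.RightOrder A 1 c X Y m := by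
  unfold RightOrder Pool.Agent.TH977.PW.RightOrder
  simp only [pow_one, N_eq]

lemma ConstantDensity_iff (A : Set ℕ) (c δ : ℝ) (X m j : ℕ) :
    ConstantDensity A c δ X m j ↔ Pool.Agent.TH977.PW.ConstantDensity A 1 c δ X m j := by
  unfold ConstantDensity Pool.Agent.TH977.PW.ConstantDensity
  simp only [pow_one, N_eq]

open Classical in
lemma badScales_eq (A : Set ℕ) (c δ : ℝ) (X Y m : ℕ) :
    badScales A c δ X Y m = Pool.Agent.TH977.PW.badScales A 1 c δ X Y m := by
  unfold badScales Pool.Agent.TH977.PW.badScales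
  refine congrArg card (Finset.ext fun j => ?_)
  simp only [mem_filter, ConstantDensity_iff, pow_one]

lemma Irregular_eq (A : Set ℕ) (c δ : ℝ) (B X Y : ℕ) :
    Irregular A c δ B X Y = Pool.Agent.TH977.PW.Irregular A 1 c δ B X Y := by
  unfold Irregular Pool.Agent.TH977.PW.Irregular
  simp only [RightOrder_iff, badScales_eq]

open Pool.Agent.TH464.PW (quad quad_eval quad_irr quad_deg quad_lead) in
lemma sys (A : ℤ) (hA : Odd A) (hsq : ¬ IsSquare (1 - 4 * A)) : Pool.Agent.W123.RU.Poly.Sys (fun _ : Fin 1 => quad 1 1 A) where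
  irr := fun _ => quad_irr 1 1 A one_ne_zero (fun p hp h => by
    have h1 := h.1
    have h2 : p ∣ 1 := by exact_mod_cast h1
    exact hp.one_lt.ne' (Nat.dvd_one.1 h2)) (by
    have e : (1 : ℤ) ^ 2 - 4 * 1 * A = 1 - 4 * A := by ring
    rw [e]
    exact hsq)
  deg := fun _ => by rw [quad_deg 1 1 A one_ne_zero]; norm_num
  lead := fun _ => by rw [quad_lead 1 1 A one_ne_zero]; norm_num
  inj := fun _ _ _ => Subsingleton.elim _ _
  adm := fun p hp => by
    by_contra hcon
    push Not at hcon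
    obtain ⟨_, h0⟩ := hcon 0
    obtain ⟨_, h1⟩ := hcon 1
    rw [quad_eval] at h0 h1
    have h2 : (p : ℤ) ∣ A := by
      have e : (1 * ((0 : ℕ) : ℤ) ^ 2 + 1 * ((0 : ℕ) : ℤ) + A) = A := by push_cast; ring
      rwa [e] at h0
    have h3 : (p : ℤ) ∣ 2 := by
      have h4 := dvd_sub h1 h2
      have e : (1 * ((1 : ℕ) : ℤ) ^ 2 + 1 * ((1 : ℕ) : ℤ) + A) - A = 2 := by push_cast; ring
      rwa [e] at h4
    have h5 : p ∣ 2 := by exact_mod_cast h3
    have h6 : p = 2 := (Nat.prime_dvd_prime_iff_eq hp Nat.prime_two).1 h5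
    rw [h6] at h2
    obtain ⟨y, hy⟩ := hA
    omega

lemma ev (A : ℤ) (m : ℕ) : (Pool.Agent.TH464.PW.quad 1 1 A).eval (m : ℤ) = (m : ℤ) ^ 2 + m + A := by
  rw [Pool.Agent.TH464.PW.quad_eval]; ring

/-- the numbers only depend on the elements of the set near the point -/
lemma N_congr (A A' : Set ℕ) (u v : ℕ) (h : ∀ n, u < n → n ≤ v → (n ∈ A ↔ n ∈ A')) : N A u v = N A' u v := by
  classical
  unfold N
  congr 1
  apply filter_congr
  intro n hn
  rw [mem_Ioc] at hn
  exact h n hn.1 hn.2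

/-- prime values at large arguments are rough -/
lemma prime_rough (A : ℤ) (r : ℕ) (hr : 2 ≤ r) (n : ℕ) (hn : A.natAbs + 2 ≤ n) (h : ((n : ℤ) ^ 2 + n + A).natAbs.Prime) :
    Rough A r n := by
  intro p hp hd
  have h1 : p ∣ ((n : ℤ) ^ 2 + n + A).natAbs := by
    rw [← Int.natCast_dvd]
    exact hd
  have h2 : p = ((n : ℤ) ^ 2 + n + A).natAbs := (Nat.prime_dvd_prime_iff_eq hp h).1 h1
  have h3 : n ≤ p := by
    rw [h2]
    have h4 : (A.natAbs : ℤ) + 2 ≤ n := by exact_mod_cast hn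
    have h5 : -(A.natAbs : ℤ) ≤ A := by
      have := Int.natAbs_neg A
      omega
    have h6 : (n : ℤ) < (n : ℤ) ^ 2 + n + A := by nlinarith
    omega
  exact Pool.Agent.TH977.PW.rpow_lt_of_le r n p hr (by omega) h3

/-- **Regular points.** -/
theorem result (A : ℤ) (hA : Odd A) (hsq : ¬ IsSquare (1 - 4 * A)) (θ : ℝ) (hθ : 0 < θ) (hθ1 : θ ≤ 1) :
    -- prime values
    (∀ ε : ℝ, 0 < ε → ∃ c : ℝ, 0 < c ∧ ∀ δ : ℝ, 0 < δ → ∃ B : ℕ, ∀ᶠ X : ℕ in atTop, ∀ Y : ℕ,
      (X : ℝ) ^ θ ≤ Y → 2 * Y ≤ X → ∀ S : Set ℕ, (∀ m ∈ S, ((m : ℤ) ^ 2 + m + A).natAbs.Prime) →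
        (N (Irregular S c δ B X Y) X (X + Y) : ℝ) ≤ ε * (Y / Real.log X)) ∧
    -- rough values
    ∃ r₀ : ℕ, ∀ r : ℕ, r₀ ≤ r →
      (∀ ε : ℝ, 0 < ε → ∃ c : ℝ, 0 < c ∧ ∀ δ : ℝ, 0 < δ → ∃ B : ℕ, ∀ᶠ X : ℕ in atTop, ∀ Y : ℕ,
        (X : ℝ) ^ θ ≤ Y → 2 * Y ≤ X → ∀ S : Set ℕ, (∀ m ∈ S, Rough A r m) →
          (N (Irregular S c δ B X Y) X (X + Y) : ℝ) ≤ ε * (Y / Real.log X)) ∧
      ∃ κ : ℝ, 0 < κ ∧ ∀ᶠ X : ℕ in atTop, ∀ Y : ℕ, (X : ℝ) ^ θ ≤ Y → Y ≤ X → κ * (Y / Real.log X) ≤
        (N {m | Rough A r m ∧ ((m : ℤ) ^ 2 + m + A).natAbs.primeFactorsList.length ≤ r} X (X + Y) : ℝ) := by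
  classical
  obtain ⟨r0, hr0, h1⟩ := Pool.Agent.TH977.PW.final
    (fun _ : Fin 1 => Pool.Agent.TH464.PW.quad 1 1 A) (sys A hA hsq)
    (fun r => {m | Rough A r m})
    (fun r => {m | Rough A r m ∧ ((m : ℤ) ^ 2 + m + A).natAbs.primeFactorsList.length ≤ r})
    1 (by rw [Fintype.card_fin])
    (fun r m _ hm i p hp hd => by
      rw [ev] at hd
      exact hm p hp hd)
    (fun r m _ h1 h2 => by
      refine ⟨fun p hp hd => h1 0 p hp ?_, ?_⟩
      · rw [ev]
        exact hd
      · have h3 := h2 0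
        rw [ev] at h3
        exact h3) θ hθ hθ1
  have key : ∀ r : ℕ, r0 ≤ r → ∀ ε : ℝ, 0 < ε → ∃ c : ℝ, 0 < c ∧ ∀ δ : ℝ, 0 < δ → ∃ B : ℕ,
      ∀ᶠ X : ℕ in atTop, ∀ Y : ℕ,
      (X : ℝ) ^ θ ≤ Y → 2 * Y ≤ X → ∀ S : Set ℕ, (∀ m ∈ S, Rough A r m) →
        (N (Irregular S c δ B X Y) X (X + Y) : ℝ) ≤ ε * (Y / Real.log X) := by
    intro r hr ε hε
    obtain ⟨c, hc, h2⟩ := (h1 r hr).2 ε hε
    refine ⟨c, hc, fun δ hδ => ?_⟩
    obtain ⟨B, h3⟩ := h2 δ hδ
    refine ⟨B, ?_⟩
    filter_upwards [h3] with X hX Y hXY hYX T hT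
    have h4 := hX Y hXY hYX T (fun p hp => hT p hp)
    rw [N_eq, Irregular_eq]
    rw [pow_one] at h4
    calc _ ≤ ε * Y / Real.log X := h4
      _ = _ := by ring
  refine ⟨?_, r0, fun r hr => ⟨key r hr, ?_⟩⟩
  · intro ε hε
    obtain ⟨c, hc, h2⟩ := key r0 le_rfl ε hε
    refine ⟨c, hc, fun δ hδ => ?_⟩
    obtain ⟨B, h3⟩ := h2 δ hδ
    refine ⟨B, ?_⟩
    filter_upwards [h3, eventually_ge_atTop (2 * (A.natAbs + 2))] with X hX hXa Y hXY hYX T hT
    -- only the elements of `T` in the interval `(X - Y, X + 2 Y]` matter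
    obtain ⟨T', hT'⟩ : ∃ T' : Set ℕ, T' = {n | n ∈ T ∧ X - Y < n} := ⟨_, rfl⟩
    have h1 := hX Y hXY hYX T' (fun n hn => by
      rw [hT'] at hn
      have h2 := hn.2
      exact prime_rough A r0 hr0 n (by omega) (hT n hn.1))
    have hN : ∀ n, X < n → ∀ s t : ℕ, s ≤ Y → N T' (n - s) (n + t) = N T (n - s) (n + t) := by
      intro n hn s t hs
      apply N_congr
      intro m hm1 hm2
      rw [hT']
      constructor
      · exact fun h => h.1
      · exact fun h => ⟨h, by omega⟩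
    have hR : ∀ n, X < n → (RightOrder T' c X Y n ↔ RightOrder T c X Y n) := by
      intro n hn
      unfold RightOrder
      constructor
      · intro h s t hs ht hl
        rw [← hN n hn s t hs]
        exact h s t hs ht hl
      · intro h s t hs ht hl
        rw [hN n hn s t hs]
        exact h s t hs ht hl
    have hB : ∀ n, X < n → badScales T' c δ X Y n = badScales T c δ X Y n := by
      intro n hn
      unfold badScales
      congr 1
      apply filter_congr
      intro j hj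
      rw [mem_range] at hj
      have hY1 : 1 ≤ Y := by
        rcases Nat.eq_zero_or_pos Y with h0 | h0
        · exfalso
          rw [h0] at hXY
          have : (0 : ℝ) < (X : ℝ) ^ θ := Real.rpow_pos_of_pos (by exact_mod_cast (by omega : 0 < X)) θ
          simp only [Nat.cast_zero] at hXY
          linarith
        · exact h0
      have h2j : 2 ^ j ≤ Y := by
        calc 2 ^ j ≤ 2 ^ Nat.log 2 Y := Nat.pow_le_pow_right (by norm_num) (by omega)
          _ ≤ Y := Nat.pow_log_le_self 2 (by omega)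
      apply and_congr Iff.rfl
      apply not_congr
      unfold ConstantDensity
      apply exists_congr
      intro lam
      apply and_congr Iff.rfl
      apply and_congr Iff.rfl
      constructor
      · intro h s t hs ht
        rw [← hN n hn s t (hs.trans h2j)]
        exact h s t hs ht
      · intro h s t hs ht
        rw [hN n hn s t (hs.trans h2j)]
        exact h s t hs ht
    refine le_trans (le_of_eq ?_) h1
    congr 1
    apply N_congr
    intro n hn1 hn2
    unfold Irregular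
    constructor
    · rintro ⟨g1, g2⟩
      refine ⟨by rw [hT']; exact ⟨g1, by omega⟩, ?_⟩
      rw [hR n hn1, hB n hn1]
      exact g2
    · rintro ⟨g1, g2⟩
      rw [hR n hn1, hB n hn1] at g2
      rw [hT'] at g1
      exact ⟨g1.1, g2⟩
  · obtain ⟨κ, hκ, h2⟩ := (h1 r hr).1
    refine ⟨κ, hκ, ?_⟩
    filter_upwards [h2] with X hX Y hXY hYX
    have h3 := hX Y hXY hYX
    rw [pow_one] at h3
    rw [N_eq]
    calc κ * (Y / Real.log X) = κ * Y / Real.log X := by ring
      _ ≤ _ := h3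

end Pool.Agent.Results.MP_8be758_nt.RegularPoints
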