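import Pool.Agent.Q48.RD.PMom
import Pool.Agent.TH464.PW.Quad

/-!
# Simultaneous primes `n ^ 2 + n + a_1, …, n ^ 2 + n + a_l` in short intervals

Let `l ≥ 2` and let `a_1, …, a_l` be distinct positive integers for which the polynomials `n ^ 2 + n + a_j` have no fixed prime divisor
(so all the `a_j` are odd). We count the `n` in `(x, x + T]` for which ALL the numbers `n ^ 2 + n + a_j`, `j ≤ l`, are primes (or almost primes).

Let `g ≥ 2` be a base and `K` a large number of digits. For every `i < K` let `A i` be an arbitrary set of digits, such that the number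
`|A 0| ⋯ |A (K - 1)|` of the integers `t < g ^ K` whose `i`-th digit belongs to `A i` for all `i < K` is at least `exp (- δ K) g ^ K`.
Let `N ≤ g ^ (E K)` be arbitrary. We consider the numbers `x = N + t` with these `t`: they form a set with only
`y ^ (1 - δ')` elements in an interval of length `y = g ^ K`, which may be an arbitrarily small power of `x`.

Let `k ≥ 1` and `T ≤ g ^ (E K)`. The conjecture of Bateman and Horn for the `k l` polynomials `(x + h_i) ^ 2 + (x + h_i) + a_j`, averaged
over the shifts, predicts that the mean value of the `k`-th power of this number has the order of magnitude of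
`(T / K ^ l) ^ k` for `T ≥ K ^ l` and of `T / K ^ l` for `T ≤ K ^ l`. We prove

(1) the upper bound of this order for the primes, for `x` in all these sets;

(2) the exact order of magnitude for the almost primes;

(3) that a positive proportion (for `T ≤ K ^ l`: the expected proportion `T / K ^ l`) of the intervals `(x, x + T]` contains the
expected number of such `n`, with almost primes.
-/

set_option autoImplicit false

namespace Pool.Agent.Results.MP_8be758_nt.SimultaneousPrimeValues

open Filter Finset
open Pool.Agent.Q315.RD Pool.Agent.Q48.RD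
open Pool.Agent.TH464.PW (quad quad_irr quad_deg quad_lead quad_eval)

/-- The constant terms `a_j` are admissible: positive, distinct, and for no prime `p` is the product of the `n ^ 2 + n + a_j`
divisible by `p` for all `n`. -/
structure Admissible {l : ℕ} (a : Fin l → ℕ) : Prop where
  pos : ∀ j, 1 ≤ a j
  distinct : Function.Injective a
  noFixedPrime : ∀ p : ℕ, p.Prime → ∃ n : ℕ, ∀ j, ¬ p ∣ n ^ 2 + n + a j

/-- The number of the `n` with `x < n ≤ x + T` for which all the numbers `n ^ 2 + n + a_j` are primes. -/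
def primesIn {l : ℕ} (a : Fin l → ℕ) (x T : ℕ) : ℕ := ((Ioc x (x + T)).filter fun n => ∀ j, (n ^ 2 + n + a j).Prime).card

open Classical in
/-- The number of the `n` with `x < n ≤ x + T` for which all the numbers `n ^ 2 + n + a_j` have at most `r` prime factors, all
larger than `y ^ (1 / r)`. -/
noncomputable def almostPrimesIn (y r : ℕ) {l : ℕ} (a : Fin l → ℕ) (x T : ℕ) : ℕ :=
  ((Ioc x (x + T)).filter fun n => ∀ j, AlmostPrime y r (n ^ 2 + n + a j)).card

open Classical in
/-- The integers `t < g ^ K` whose `i`-th digit belongs to `A i` for all `i < K`. -/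
noncomputable def digitSet (g K : ℕ) (A : ℕ → Finset ℕ) : Finset ℕ := (range (g ^ K)).filter (HasDigits g K A)

/-- The predicted order of magnitude of the mean value of the `k`-th power: `T / K ^ l` for `T ≤ K ^ l` and `(T / K ^ l) ^ k` for
`T ≥ K ^ l`. -/
noncomputable def order (l k T K : ℕ) : ℝ := min 1 ((T : ℝ) / (K : ℝ) ^ l) * max 1 ((T : ℝ) / (K : ℝ) ^ l) ^ k

/-- **Simultaneous primes `n ^ 2 + n + a_j` in short intervals.** -/
theorem result {l : ℕ} (_hl : 2 ≤ l) (a : Fin l → ℕ) (ha : Admissible a) (k : ℕ) (hk : 1 ≤ k) (E : ℕ) :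
    ∃ δ : ℝ, 0 < δ ∧ ∃ r₀ : ℕ, 2 ≤ r₀ ∧ ∀ r : ℕ, r₀ ≤ r → ∀ g : ℕ, 2 ≤ g → ∃ κ C : ℝ, 0 < κ ∧ 0 < C ∧
      ∀ᶠ K : ℕ in atTop, ∀ N T : ℕ, N ≤ g ^ (E * K) → 1 ≤ T → T ≤ g ^ (E * K) →
        ∀ A : ℕ → Finset ℕ, (∀ i < K, A i ⊆ range g) → (g : ℝ) ^ K ≤ Real.exp (δ * K) * choices K A →
        -- the primes
        ∑ t ∈ digitSet g K A, (primesIn a (N + t) T : ℝ) ^ k ≤ C * order l k T K * choices K A ∧
        -- the almost primes
        ∑ t ∈ digitSet g K A, (almostPrimesIn (g ^ K) r a (N + t) T : ℝ) ^ k ≤ C * order l k T K * choices K A ∧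
        (g ≤ T →
          κ * order l k T K * choices K A ≤ ∑ t ∈ digitSet g K A, (almostPrimesIn (g ^ K) r a (N + t) T : ℝ) ^ k ∧
          κ * min 1 ((T : ℝ) / (K : ℝ) ^ l) * choices K A ≤
            (((digitSet g K A).filter fun t => κ * max 1 ((T : ℝ) / (K : ℝ) ^ l) ≤ almostPrimesIn (g ^ K) r a (N + t) T).card : ℝ)) := by
  classical
  have heval : ∀ j (n : ℤ), (quad 1 1 (a j)).eval n = n ^ 2 + n + a j := by
    intro j n
    rw [quad_eval]; ring
  have hkey : ∀ i j (t : ℤ), (∀ n : ℤ, n ^ 2 + n + a i = (n + t) ^ 2 + (n + t) + a j) → a i = a j := by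
    intro i j t H
    have H0 := H 0
    have H1 := H 1
    have ht : t = 0 := by linarith
    subst ht
    have : (a i : ℤ) = a j := by linarith
    exact_mod_cast this
  obtain ⟨δ, hδ, r0, hr0, H⟩ := polyMoments (fun j => quad 1 1 (a j))
    { irr := fun j => quad_irr _ _ _ one_ne_zero (by
          intro p hp hh
          have h1 := Int.le_of_dvd one_pos hh.1
          have h2 := hp.two_le
          omega) (by
        rintro ⟨z, hz⟩
        have h1 : 0 ≤ z * z := mul_self_nonneg z
        have h2 : (1 : ℤ) ≤ a j := by exact_mod_cast ha.pos j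
        rw [← hz] at h1
        linarith)
      deg := fun j => by rw [quad_deg _ _ _ one_ne_zero]; norm_num
      lead := fun j => by rw [quad_lead _ _ _ one_ne_zero]; norm_num
      inj := fun i j hij => by
        have hij' : quad 1 1 (a i) = quad 1 1 (a j) := hij
        exact ha.distinct (hkey i j 0 fun n => by rw [add_zero, ← heval i n, ← heval j n, hij'])
      adm := fun p hp => by
        obtain ⟨n, hn⟩ := ha.noFixedPrime p hp
        refine ⟨n, fun j hh => hn j ?_⟩
        rw [heval] at hh
        exact_mod_cast hh }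
    (fun i j hij t hh => hij (ha.distinct (hkey i j t fun n => by
      have h2 := congrArg (Polynomial.eval n) hh
      rw [Polynomial.eval_comp, Polynomial.eval_add, Polynomial.eval_X, Polynomial.eval_C, heval, heval] at h2
      exact h2)))
    (fun j n => n ^ 2 + n + a j) 0 (fun j n _ => by rw [heval]; push_cast; ring)
    (fun j n _ => by nlinarith) k hk E
  refine ⟨δ, hδ, r0, hr0, fun r hr g hg => ?_⟩
  obtain ⟨κ, C, hκ, hC, H⟩ := H r hr g hg
  refine ⟨κ, C, hκ, hC, ?_⟩
  filter_upwards [H] with K HK
  intro N T hN hT1 hT A hA1 hA2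
  obtain ⟨h1, h2, h3⟩ := HK N T (Nat.zero_le _) hN hT1 hT A ⟨hA1, hA2⟩
  have e1 : ∀ x, primesIn a x T = numIn (fun n => ∀ j, (n ^ 2 + n + a j).Prime) x T := by
    intro x
    unfold primesIn numIn
    congr!
  have e2 : ∀ x, almostPrimesIn (g ^ K) r a x T = numIn (fun n => ∀ j, AlmostPrime (g ^ K) r (n ^ 2 + n + a j)) x T := by
    intro x
    unfold almostPrimesIn numIn
    congr!
  simp only [e1, e2]
  refine ⟨h1, h2, fun hgT => ⟨(h3 hgT).1, (h3 hgT).2.trans (le_of_eq ?_)⟩⟩
  unfold count digitSet
  rw [filter_filter]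

end Pool.Agent.Results.MP_8be758_nt.SimultaneousPrimeValues
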